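import Pool.Agent.V11323.Tipsy

/-!
# Tipsy cop and robber: a winning position without monotone winning strategy
-/

set_option autoImplicit false

open MeasureTheory ProbabilityTheory Filter Topology
open scoped ENNReal NNReal

namespace Pool.Agent.Results.MP_037b14_pr.MonotoneNotEnough

open Pool.Agent.V11323.Chain Pool.Agent.V11323.Tipsy

/-- The vertices: level `n` has `100 ^ n` vertices `v n i`; `h k`, `g k` form a highway. -/
inductive Vx : Type
  | v : (n : ℕ) → Fin (100 ^ n) → Vx
  | h : ℕ → Vx
  | g : ℕ → Vx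
deriving DecidableEq

namespace Vx

def code : Vx → ℕ × ℕ × ℕ
  | v n i => (0, n, i.val)
  | h k => (1, k, 0)
  | g k => (2, k, 0)

lemma code_inj : Function.Injective code := by
  intro x y hxy
  cases x <;> cases y <;> simp [code] at hxy
  · obtain ⟨rfl, h2⟩ := hxy
    rw [Fin.ext h2]
  · rw [hxy]
  · rw [hxy]

instance : Countable Vx := code_inj.countable

def adj : Vx → Vx → Prop
  | v n _, v m _ => m = n + 1 ∨ n = m + 1
  | v n _, h k => n = 2 * k
  | h k, v n _ => n = 2 * k
  | h k, g j => j = k ∨ k = j + 1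
  | g j, h k => j = k ∨ k = j + 1
  | _, _ => False

lemma adj_symm {x y : Vx} (hxy : adj x y) : adj y x := by
  cases x <;> cases y <;> simp only [adj] at hxy ⊢ <;> first | exact hxy | omega

lemma adj_irrefl (x : Vx) : ¬ adj x x := by
  cases x <;> simp [adj]

/-- the graph -/
def Gr : SimpleGraph Vx where
  Adj := adj
  symm := ⟨fun _ _ hxy => adj_symm hxy⟩
  loopless := ⟨adj_irrefl⟩

/-- the vertices of level `n` -/
def lay (n : ℕ) : Finset Vx := Finset.univ.image (v n)

lemma mem_lay {n : ℕ} {y : Vx} : y ∈ lay n ↔ ∃ i, y = v n i := by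
  simp [lay, eq_comm]

lemma sum_lay (n : ℕ) (F : Vx → ℝ) (a : ℝ) (hF : ∀ i, F (v n i) = a) :
    ∑ y ∈ lay n, F y = 100 ^ n * a := by
  rw [Finset.sum_congr rfl (g := fun _ => a)]
  · rw [Finset.sum_const, lay, Finset.card_image_of_injective _ (fun i j hij => by
      injection hij)]
    simp
  · intro y hy
    obtain ⟨i, rfl⟩ := mem_lay.mp hy
    exact hF i

/-- the neighbours -/
def nb : Vx → Finset Vx
  | v n _ => lay (n + 1) ∪ ((if n = 0 then ∅ else lay (n - 1)) ∪
      (if n % 2 = 0 then {h (n / 2)} else ∅))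
  | h k => lay (2 * k) ∪ ({g k} ∪ (if k = 0 then ∅ else {g (k - 1)}))
  | g k => {h k, h (k + 1)}

lemma mem_nb (x y : Vx) : y ∈ nb x ↔ adj x y := by
  cases x with
  | v n i =>
    cases y with
    | v m j =>
      simp only [nb, adj, Finset.mem_union, mem_lay]
      constructor
      · rintro (⟨j', hj⟩ | h1 | h1)
        · injection hj with h2 _; exact Or.inl h2
        · split_ifs at h1 with h3
          · simp at h1
          · obtain ⟨j', hj⟩ := mem_lay.mp h1
            injection hj with h2 _; right; omega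
        · split_ifs at h1 <;> simp at h1
      · rintro (rfl | rfl)
        · left; exact ⟨j, rfl⟩
        · right; left
          rw [if_neg (by omega)]
          exact mem_lay.mpr ⟨j, rfl⟩
    | h k =>
      simp only [nb, adj, Finset.mem_union, mem_lay]
      constructor
      · rintro (⟨j', hj⟩ | h1 | h1)
        · exact absurd hj (by simp)
        · split_ifs at h1 with h3
          · simp at h1
          · obtain ⟨j', hj⟩ := mem_lay.mp h1
            exact absurd hj (by simp)
        · split_ifs at h1 with h3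
          · simp only [Finset.mem_singleton, h.injEq] at h1; omega
          · simp at h1
      · rintro rfl
        right; right
        rw [if_pos (by omega)]
        simp
    | g k =>
      simp only [nb, adj, Finset.mem_union, mem_lay, iff_false]
      rintro (⟨j', hj⟩ | h1 | h1)
      · exact absurd hj (by simp)
      · split_ifs at h1 with h3
        · simp at h1
        · obtain ⟨j', hj⟩ := mem_lay.mp h1
          exact absurd hj (by simp)
      · split_ifs at h1 <;> simp at h1
  | h k =>
    cases y with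
    | v m j =>
      simp only [nb, adj, Finset.mem_union, mem_lay]
      constructor
      · rintro (⟨j', hj⟩ | h1 | h1)
        · injection hj
        · simp at h1
        · split_ifs at h1 <;> simp at h1
      · rintro rfl
        exact Or.inl ⟨j, rfl⟩
    | h j =>
      simp only [nb, adj, Finset.mem_union, mem_lay, iff_false]
      rintro (⟨j', hj⟩ | h1 | h1)
      · exact absurd hj (by simp)
      · simp at h1
      · split_ifs at h1 <;> simp at h1
    | g j =>
      simp only [nb, adj, Finset.mem_union, mem_lay]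
      constructor
      · rintro (⟨j', hj⟩ | h1 | h1)
        · exact absurd hj (by simp)
        · simp only [Finset.mem_singleton, g.injEq] at h1; exact Or.inl h1
        · split_ifs at h1 with h3
          · simp at h1
          · simp only [Finset.mem_singleton, g.injEq] at h1; right; omega
      · rintro (rfl | rfl)
        · right; left; simp
        · right; right
          rw [if_neg (by omega)]
          simp
  | g k =>
    cases y with
    | v m j => simp [nb, adj]
    | h j =>
      simp only [nb, adj, Finset.mem_insert, Finset.mem_singleton, h.injEq]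
      omega
    | g j => simp [nb, adj]

instance : Gr.LocallyFinite := fun x =>
  Fintype.ofFinset (nb x) (fun y => by rw [mem_nb]; rfl)

lemma nbr_eq (x : Vx) : Gr.neighborFinset x = nb x := by
  ext y
  rw [SimpleGraph.mem_neighborFinset, mem_nb]
  rfl

/-- the vertex `0` of level `n` -/
def z (n : ℕ) : Vx := v n ⟨0, by positivity⟩

lemma hne (x : Vx) : (Gr.neighborFinset x).Nonempty := by
  rw [nbr_eq]
  cases x with
  | v n i => exact ⟨z (n + 1), (mem_nb _ _).mpr (Or.inl rfl)⟩
  | h k => exact ⟨z (2 * k), (mem_nb _ _).mpr rfl⟩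
  | g k => exact ⟨h k, (mem_nb _ _).mpr (Or.inl rfl)⟩

section Avg

variable (F : Vx → ℝ) (f : ℕ → ℝ) (hF : ∀ n i, F (v n i) = f n)

include hF

lemma sum_v0 (i : Fin (100 ^ 0)) : ∑ y ∈ Gr.neighborFinset (v 0 i), F y =
    100 * f 1 + F (h 0) := by
  rw [nbr_eq]
  simp only [nb, if_true, Nat.zero_mod, Finset.empty_union]
  rw [Finset.sum_union, Finset.sum_singleton, sum_lay _ _ _ (hF _)]
  · norm_num
  · rw [Finset.disjoint_left]
    intro y hy
    obtain ⟨j, rfl⟩ := mem_lay.mp hy
    simp

lemma sum_ve (k : ℕ) (i : Fin (100 ^ (2 * k + 2))) :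
    ∑ y ∈ Gr.neighborFinset (v (2 * k + 2) i), F y =
    100 ^ (2 * k + 3) * f (2 * k + 3) + 100 ^ (2 * k + 1) * f (2 * k + 1) + F (h (k + 1)) := by
  rw [nbr_eq]
  simp only [nb]
  rw [if_neg (by omega), if_pos (by omega), Finset.sum_union, Finset.sum_union,
    Finset.sum_singleton, sum_lay _ _ _ (hF _), sum_lay _ _ _ (hF _)]
  · have : (2 * k + 2) / 2 = k + 1 := by omega
    rw [this]
    have : 2 * k + 2 - 1 = 2 * k + 1 := by omega
    rw [this]
    ring_nf
  · rw [Finset.disjoint_left]
    intro y hy
    obtain ⟨j, rfl⟩ := mem_lay.mp hy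
    simp
  · rw [Finset.disjoint_left]
    intro y hy
    obtain ⟨j, rfl⟩ := mem_lay.mp hy
    rw [Finset.mem_union, mem_lay]
    rintro (⟨j', hj⟩ | h1)
    · injection hj with h2 _; omega
    · simp at h1

lemma sum_vo (k : ℕ) (i : Fin (100 ^ (2 * k + 1))) :
    ∑ y ∈ Gr.neighborFinset (v (2 * k + 1) i), F y =
    100 ^ (2 * k + 2) * f (2 * k + 2) + 100 ^ (2 * k) * f (2 * k) := by
  rw [nbr_eq]
  simp only [nb]
  rw [if_neg (by omega), if_neg (by omega), Finset.union_empty, Finset.sum_union,
    sum_lay _ _ _ (hF _), sum_lay _ _ _ (hF _)]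
  · have : 2 * k + 1 - 1 = 2 * k := by omega
    rw [this]
  · rw [Finset.disjoint_left]
    intro y hy
    obtain ⟨j, rfl⟩ := mem_lay.mp hy
    rw [mem_lay]
    rintro ⟨j', hj⟩
    injection hj with h2 _; omega

lemma sum_h0 : ∑ y ∈ Gr.neighborFinset (h 0), F y = f 0 + F (g 0) := by
  rw [nbr_eq]
  simp only [nb, if_true, Finset.union_empty]
  rw [Finset.sum_union, Finset.sum_singleton, sum_lay _ _ _ (hF _)]
  · norm_num
  · rw [Finset.disjoint_left]
    intro y hy
    obtain ⟨j, rfl⟩ := mem_lay.mp hy
    simp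

lemma sum_h (k : ℕ) : ∑ y ∈ Gr.neighborFinset (h (k + 1)), F y =
    100 ^ (2 * k + 2) * f (2 * k + 2) + F (g (k + 1)) + F (g k) := by
  rw [nbr_eq]
  simp only [nb]
  rw [if_neg (by omega), Finset.sum_union, Finset.sum_union, Finset.sum_singleton,
    Finset.sum_singleton, sum_lay _ _ _ (hF _)]
  · have : 2 * (k + 1) = 2 * k + 2 := by omega
    rw [this, add_assoc]
    rfl
  · simp
  · rw [Finset.disjoint_left]
    intro y hy
    obtain ⟨j, rfl⟩ := mem_lay.mp hy
    simp

omit hF in
lemma sum_g (k : ℕ) : ∑ y ∈ Gr.neighborFinset (g k), F y = F (h k) + F (h (k + 1)) := by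
  rw [nbr_eq]
  simp only [nb]
  rw [Finset.sum_pair (by simp)]

end Avg

lemma card_v0 (i : Fin (100 ^ 0)) : ((Gr.neighborFinset (v 0 i)).card : ℝ) = 101 := by
  have := sum_v0 (fun _ => 1) (fun _ => 1) (fun _ _ => rfl) i
  simp only [Finset.sum_const, nsmul_eq_mul, mul_one] at this
  rw [this]; norm_num

lemma card_ve (k : ℕ) (i : Fin (100 ^ (2 * k + 2))) :
    ((Gr.neighborFinset (v (2 * k + 2) i)).card : ℝ) =
      100 ^ (2 * k + 3) + 100 ^ (2 * k + 1) + 1 := by
  have := sum_ve (fun _ => 1) (fun _ => 1) (fun _ _ => rfl) k i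
  simp only [Finset.sum_const, nsmul_eq_mul, mul_one] at this
  exact this

lemma card_vo (k : ℕ) (i : Fin (100 ^ (2 * k + 1))) :
    ((Gr.neighborFinset (v (2 * k + 1) i)).card : ℝ) =
      100 ^ (2 * k + 2) + 100 ^ (2 * k) := by
  have := sum_vo (fun _ => 1) (fun _ => 1) (fun _ _ => rfl) k i
  simp only [Finset.sum_const, nsmul_eq_mul, mul_one] at this
  exact this

lemma card_h0 : ((Gr.neighborFinset (h 0)).card : ℝ) = 2 := by
  have := sum_h0 (fun _ => 1) (fun _ => 1) (fun _ _ => rfl)
  simp only [Finset.sum_const, nsmul_eq_mul, mul_one] at this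
  rw [this]; norm_num

lemma card_h (k : ℕ) : ((Gr.neighborFinset (h (k + 1))).card : ℝ) =
    100 ^ (2 * k + 2) + 2 := by
  have := sum_h (fun _ => 1) (fun _ => 1) (fun _ _ => rfl) k
  simp only [Finset.sum_const, nsmul_eq_mul, mul_one] at this
  rw [this]; ring

lemma card_g (k : ℕ) : ((Gr.neighborFinset (g k)).card : ℝ) = 2 := by
  have := sum_g (fun _ => 1) k
  simp only [Finset.sum_const, nsmul_eq_mul, mul_one] at this
  rw [this]; norm_num

/-- every level is `2 k`, `2 k + 1` -/
lemma cases_level (n : ℕ) : n = 0 ∨ (∃ k, n = 2 * k + 2) ∨ ∃ k, n = 2 * k + 1 := by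
  rcases Nat.even_or_odd' n with ⟨k, hk | hk⟩
  · rcases Nat.eq_zero_or_pos k with h1 | h1
    · left; omega
    · right; left; exact ⟨k - 1, by omega⟩
  · right; right; exact ⟨k, hk⟩

/-! ### Distances -/

lemma adj_zz (n : ℕ) (x : Vx) (hx : ∃ i, x = v n i) : Gr.Adj x (z (n + 1)) := by
  obtain ⟨i, rfl⟩ := hx
  exact Or.inl rfl

lemma reach_level (n m : ℕ) (i : Fin (100 ^ n)) (j : Fin (100 ^ m)) :
    Gr.Reachable (v n i) (v m j) := by
  have h1 : ∀ n (i : Fin (100 ^ n)), Gr.Reachable (v n i) (v 0 ⟨0, by positivity⟩) := by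
    intro n
    induction n with
    | zero =>
      intro i
      have : i = ⟨0, by positivity⟩ := by
        apply Fin.ext
        have := i.isLt
        simp only [pow_zero] at this
        simp only
        omega
      rw [this]
    | succ n ih =>
      intro i
      have h2 : Gr.Adj (v (n + 1) i) (z n) := Or.inr rfl
      exact h2.reachable.trans (ih _)
  exact (h1 n i).trans (h1 m j).symm

lemma conn : Gr.Connected := by
  have h1 : ∀ x, Gr.Reachable x (z 0) := by
    intro x
    cases x with
    | v n i => exact reach_level _ _ _ _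
    | h k =>
      have h2 : Gr.Adj (h k) (z (2 * k)) := rfl
      exact h2.reachable.trans (reach_level _ _ _ _)
    | g k =>
      have h2 : Gr.Adj (g k) (h k) := Or.inl rfl
      have h3 : Gr.Adj (h k) (z (2 * k)) := rfl
      exact (h2.reachable.trans h3.reachable).trans (reach_level _ _ _ _)
  have : Nonempty Vx := ⟨z 0⟩
  exact ⟨fun x y => (h1 x).trans (h1 y).symm⟩

lemma dist_adj {x y : Vx} (hxy : Gr.Adj x y) : Gr.dist x y ≤ 1 :=
  (SimpleGraph.dist_eq_one_iff_adj.mpr hxy).le

lemma dist_lv (n d : ℕ) (i : Fin (100 ^ (n + d + 1))) (j : Fin (100 ^ n)) :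
    Gr.dist (v (n + d + 1) i) (v n j) ≤ d + 1 := by
  induction d with
  | zero => exact dist_adj (Or.inr rfl)
  | succ d ih =>
    have h1 : Gr.Adj (v (n + (d + 1) + 1) i) (z (n + d + 1)) := Or.inr rfl
    have h2 := conn.dist_triangle (u := v (n + (d + 1) + 1) i) (v := z (n + d + 1)) (w := v n j)
    have h3 := dist_adj h1
    have h4 := ih ⟨0, by positivity⟩
    unfold z at h2 h3
    omega

/-- distance-like function to the vertex of level `0` -/
def del : Vx → ℕ
  | v n _ => n
  | h k => 2 * k + 1
  | g k => 2 * k + 2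

lemma del_adj {x y : Vx} (hxy : adj x y) : del x ≤ del y + 1 := by
  cases x <;> cases y <;> simp only [adj] at hxy <;> simp only [del] <;> omega

lemma del_walk {x y : Vx} (p : Gr.Walk x y) : del x ≤ del y + p.length := by
  induction p with
  | nil => simp
  | cons hxy p ih =>
    have := del_adj hxy
    rw [SimpleGraph.Walk.length_cons]
    omega

lemma del_dist (x y : Vx) : del x ≤ del y + Gr.dist x y := by
  obtain ⟨p, hp⟩ := conn.exists_walk_length_eq_dist x y
  rw [← hp]
  exact del_walk p

/-- level -/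
def lev : Vx → ℕ
  | v n _ => n
  | h k => 2 * k
  | g k => 2 * k

lemma dist_lev (x : Vx) : Gr.dist x (z (lev x)) ≤ 2 := by
  cases x with
  | v n i =>
    have h1 := dist_adj (show Gr.Adj (v n i) (z (n + 1)) from Or.inl rfl)
    have h2 := dist_adj (show Gr.Adj (z (n + 1)) (z n) from Or.inr rfl)
    have h3 := conn.dist_triangle (u := v n i) (v := z (n + 1)) (w := z n)
    show Gr.dist (v n i) (z n) ≤ 2
    omega
  | h k =>
    have h1 := dist_adj (show Gr.Adj (h k) (z (2 * k)) from rfl)
    show Gr.dist (h k) (z (2 * k)) ≤ 2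
    omega
  | g k =>
    have h1 := dist_adj (show Gr.Adj (g k) (h k) from Or.inl rfl)
    have h2 := dist_adj (show Gr.Adj (h k) (z (2 * k)) from rfl)
    have h3 := conn.dist_triangle (u := g k) (v := h k) (w := z (2 * k))
    show Gr.dist (g k) (z (2 * k)) ≤ 2
    omega

lemma dist_zz (n m : ℕ) : Gr.dist (z n) (z m) ≤ (n - m) + (m - n) := by
  rcases lt_trichotomy n m with h1 | h1 | h1
  · obtain ⟨d, rfl⟩ : ∃ d, m = n + d + 1 := ⟨m - n - 1, by omega⟩
    have := dist_lv n d ⟨0, by positivity⟩ ⟨0, by positivity⟩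
    rw [SimpleGraph.dist_comm]
    unfold z
    omega
  · subst h1
    simp
  · obtain ⟨d, rfl⟩ : ∃ d, n = m + d + 1 := ⟨n - m - 1, by omega⟩
    have := dist_lv m d ⟨0, by positivity⟩ ⟨0, by positivity⟩
    unfold z
    omega

/-- the potential -/
noncomputable def phi : Vx → ℝ
  | v n _ => n / 2 + (if n % 2 = 0 then 0.62 else 0.658)
  | h k => k
  | g k => k + 0.285

lemma phi_lev (x : Vx) : (lev x : ℝ) / 2 ≤ phi x ∧ phi x ≤ (lev x : ℝ) / 2 + 0.658 := by
  cases x with
  | v n i =>
    simp only [lev, phi]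
    split_ifs <;> constructor <;> linarith
  | h k =>
    simp only [lev, phi]
    push_cast
    constructor <;> linarith
  | g k =>
    simp only [lev, phi]
    push_cast
    constructor <;> linarith

lemma phi_nonneg (x : Vx) : 0 ≤ phi x := by
  have h1 := (phi_lev x).1
  have h2 : (0 : ℝ) ≤ lev x := Nat.cast_nonneg _
  linarith

lemma phi_adj' {x y : Vx} (hxy : adj x y) : phi y ≤ phi x + 0.715 := by
  cases x with
  | v n i =>
    cases y with
    | v m j =>
      simp only [adj] at hxy
      simp only [phi]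
      rcases hxy with h1 | h1
      · subst h1
        push_cast
        split_ifs <;> linarith
      · subst h1
        push_cast
        split_ifs <;> linarith
    | h k =>
      simp only [adj] at hxy
      subst hxy
      simp only [phi]
      rw [if_pos (by omega)]
      push_cast
      linarith
    | g k => simp [adj] at hxy
  | h k =>
    cases y with
    | v m j =>
      simp only [adj] at hxy
      subst hxy
      simp only [phi]
      rw [if_pos (by omega)]
      push_cast
      linarith
    | h j => simp [adj] at hxy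
    | g j =>
      simp only [adj] at hxy
      simp only [phi]
      rcases hxy with h1 | h1
      · subst h1; linarith
      · subst h1; push_cast; linarith
  | g k =>
    cases y with
    | v m j => simp [adj] at hxy
    | h j =>
      simp only [adj] at hxy
      simp only [phi]
      rcases hxy with h1 | h1
      · subst h1; linarith
      · subst h1; push_cast; linarith
    | g j => simp [adj] at hxy

lemma phi_adj {x y : Vx} (hxy : Gr.Adj x y) : |phi y - phi x| ≤ 0.715 := by
  rw [abs_le]
  have h1 := phi_adj' (show adj x y from hxy)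
  have h2 := phi_adj' (adj_symm (show adj x y from hxy))
  constructor <;> linarith

/-- vertices at a large distance have different potentials -/
lemma far {x y : Vx} (hd : 8 < Gr.dist x y) : 0.715 ≤ |phi x - phi y| := by
  by_contra hc
  rw [not_le, abs_lt] at hc
  have h1 := phi_lev x
  have h2 := phi_lev y
  have h3 := dist_lev x
  have h4 := dist_lev y
  have h5 := dist_zz (lev x) (lev y)
  have h6 := conn.dist_triangle (u := x) (v := z (lev x)) (w := y)
  have h7 := conn.dist_triangle (u := z (lev x)) (v := z (lev y)) (w := y)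
  rw [SimpleGraph.dist_comm] at h4
  have h8 : (lev x : ℝ) < lev y + 3 := by linarith
  have h9 : (lev y : ℝ) < lev x + 3 := by linarith
  have h10 : lev x < lev y + 3 := by exact_mod_cast h8
  have h11 : lev y < lev x + 3 := by exact_mod_cast h9
  omega

/-! ### Drift of the potential -/

/-- inward move, using the highway -/
def inn : Vx → Vx
  | v n _ => if n % 2 = 0 then h (n / 2) else z (n - 1)
  | h 0 => h 0
  | h (k + 1) => g k
  | g k => h k

/-- outward move -/
def out : Vx → Vx
  | v n _ => z (n + 1)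
  | h k => z (2 * k)
  | g k => h (k + 1)

lemma inn_ok (x : Vx) : inn x = x ∨ Gr.Adj x (inn x) := by
  cases x with
  | v n i =>
    right
    simp only [inn]
    split_ifs with h1
    · show n = 2 * (n / 2)
      omega
    · show _ ∨ _
      right; omega
  | h k =>
    cases k with
    | zero => left; rfl
    | succ k => right; exact Or.inr rfl
  | g k => right; exact Or.inl rfl

lemma out_ok (x : Vx) : Gr.Adj x (out x) := by
  cases x with
  | v n i => exact Or.inl rfl
  | h k => exact (rfl : 2 * k = 2 * k)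
  | g k => exact Or.inr rfl

noncomputable def pf (n : ℕ) : ℝ := n / 2 + (if n % 2 = 0 then 0.62 else 0.658)

lemma pf_even (k : ℕ) : pf (2 * k) = k + 0.62 := by
  unfold pf
  rw [if_pos (by omega)]
  push_cast
  ring

lemma pf_odd (k : ℕ) : pf (2 * k + 1) = k + 1.158 := by
  unfold pf
  rw [if_neg (by omega)]
  push_cast
  ring

lemma phi_v (n : ℕ) (i : Fin (100 ^ n)) : phi (v n i) = pf n := rfl

lemma avg_v0 (i : Fin (100 ^ 0)) : phi (v 0 i) ≤ avg Gr phi (v 0 i) := by
  unfold avg
  rw [sum_v0 phi pf phi_v, card_v0, phi_v]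
  have h1 := pf_even 0
  have h2 := pf_odd 0
  simp only [mul_zero, zero_add] at h1 h2
  rw [h1, h2]
  simp only [phi]
  norm_num

lemma avg_ve (k : ℕ) (i : Fin (100 ^ (2 * k + 2))) :
    phi (v (2 * k + 2) i) ≤ avg Gr phi (v (2 * k + 2) i) ∧
      avg Gr phi (v (2 * k + 2) i) ≤ phi (v (2 * k + 2) i) + 0.538 := by
  unfold avg
  rw [sum_ve phi pf phi_v, card_ve, phi_v]
  have h1 := pf_even (k + 1)
  have h2 := pf_odd (k + 1)
  have h3 := pf_odd k
  have e1 : 2 * (k + 1) = 2 * k + 2 := by ring
  have e2 : 2 * (k + 1) + 1 = 2 * k + 3 := by ring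
  rw [e1] at h1
  rw [e2] at h2
  rw [h1, h2, h3]
  simp only [phi]
  push_cast
  have hB : (1 : ℝ) ≤ 100 ^ (2 * k + 1) := one_le_pow₀ (by norm_num)
  have hA : (100 : ℝ) ^ (2 * k + 3) = 10000 * 100 ^ (2 * k + 1) := by
    rw [show 2 * k + 3 = (2 * k + 1) + 2 by ring, pow_add]; norm_num; ring
  rw [hA]
  set B : ℝ := 100 ^ (2 * k + 1)
  have hpos : 0 < 10000 * B + B + 1 := by linarith
  constructor
  · rw [le_div_iff₀ hpos]
    nlinarith
  · rw [div_le_iff₀ hpos]
    nlinarith

lemma avg_vo (k : ℕ) (i : Fin (100 ^ (2 * k + 1))) :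
    phi (v (2 * k + 1) i) ≤ avg Gr phi (v (2 * k + 1) i) ∧
      avg Gr phi (v (2 * k + 1) i) ≤ phi (v (2 * k + 1) i) + 0.462 := by
  unfold avg
  rw [sum_vo phi pf phi_v, card_vo, phi_v]
  have h1 := pf_even (k + 1)
  have h2 := pf_even k
  have h3 := pf_odd k
  have e1 : 2 * (k + 1) = 2 * k + 2 := by ring
  rw [e1] at h1
  rw [h1, h2, h3]
  push_cast
  have hB : (1 : ℝ) ≤ 100 ^ (2 * k) := one_le_pow₀ (by norm_num)
  have hA : (100 : ℝ) ^ (2 * k + 2) = 10000 * 100 ^ (2 * k) := by
    rw [pow_add]; norm_num; ring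
  rw [hA]
  set B : ℝ := 100 ^ (2 * k)
  have hpos : 0 < 10000 * B + B := by linarith
  constructor
  · rw [le_div_iff₀ hpos]
    nlinarith
  · rw [div_le_iff₀ hpos]
    nlinarith

lemma avg_h0 : phi (h 0) ≤ avg Gr phi (h 0) := by
  unfold avg
  rw [sum_h0 phi pf phi_v, card_h0]
  have h1 := pf_even 0
  simp only [mul_zero] at h1
  rw [h1]
  simp only [phi]
  norm_num

lemma avg_h (k : ℕ) : phi (h (k + 1)) ≤ avg Gr phi (h (k + 1)) ∧
    avg Gr phi (h (k + 1)) ≤ phi (h (k + 1)) + 0.62 := by
  unfold avg
  rw [sum_h phi pf phi_v, card_h]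
  have h1 := pf_even (k + 1)
  have e1 : 2 * (k + 1) = 2 * k + 2 := by ring
  rw [e1] at h1
  rw [h1]
  simp only [phi]
  push_cast
  have hB : (1 : ℝ) ≤ 100 ^ (2 * k + 2) := one_le_pow₀ (by norm_num)
  set B : ℝ := 100 ^ (2 * k + 2)
  have hpos : 0 < B + 2 := by linarith
  constructor
  · rw [le_div_iff₀ hpos]
    nlinarith
  · rw [div_le_iff₀ hpos]
    nlinarith

lemma avg_g (k : ℕ) : avg Gr phi (g k) = phi (g k) + 0.215 := by
  unfold avg
  rw [sum_g, card_g]
  simp only [phi]
  push_cast
  ring

/-- drift of the inward strategy -/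
lemma drift_in (x : Vx) (hx : 0.715 ≤ phi x) :
    12 / 25 * phi (inn x) + 1038 / 2000 * avg Gr phi x ≤ (12 / 25 + 1038 / 2000) * phi x
      - 0.017 := by
  cases x with
  | v n i =>
    rcases cases_level n with rfl | ⟨k, rfl⟩ | ⟨k, rfl⟩
    · exfalso
      simp only [phi] at hx
      norm_num at hx
    · have h1 := avg_ve k i
      have h2 : phi (inn (v (2 * k + 2) i)) = phi (v (2 * k + 2) i) - 0.62 := by
        simp only [inn]
        rw [if_pos (by omega)]
        simp only [phi]
        rw [if_pos (by omega), show (2 * k + 2) / 2 = k + 1 by omega]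
        push_cast
        ring
      rw [h2]
      linarith
    · have h1 := avg_vo k i
      have h2 : phi (inn (v (2 * k + 1) i)) = phi (v (2 * k + 1) i) - 0.538 := by
        simp only [inn]
        rw [if_neg (by omega)]
        simp only [phi, z]
        rw [show 2 * k + 1 - 1 = 2 * k by omega, if_pos (by omega), if_neg (by omega)]
        push_cast
        ring
      rw [h2]
      linarith
  | h k =>
    cases k with
    | zero =>
      exfalso
      simp only [phi] at hx
      norm_num at hx
    | succ k =>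
      have h1 := avg_h k
      have h2 : phi (inn (h (k + 1))) = phi (h (k + 1)) - 0.715 := by
        simp only [inn, phi]
        push_cast
        ring
      rw [h2]
      linarith
  | g k =>
    have h1 := avg_g k
    have h2 : phi (inn (g k)) = phi (g k) - 0.285 := by
      simp only [inn, phi]
      ring
    rw [h2, h1]
    linarith

lemma avg_sub (x : Vx) : phi x ≤ avg Gr phi x := by
  cases x with
  | v n i =>
    rcases cases_level n with rfl | ⟨k, rfl⟩ | ⟨k, rfl⟩
    · exact avg_v0 i
    · exact (avg_ve k i).1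
    · exact (avg_vo k i).1
  | h k =>
    cases k with
    | zero => exact avg_h0
    | succ k => exact (avg_h k).1
  | g k => rw [avg_g]; linarith

lemma out_phi (x : Vx) : phi x + 0.4 ≤ phi (out x) := by
  cases x with
  | v n i =>
    rcases Nat.even_or_odd' n with ⟨k, rfl | rfl⟩
    · simp only [out, z, phi]
      rw [if_pos (by omega), if_neg (by omega)]
      push_cast
      linarith
    · simp only [out, z, phi]
      rw [if_neg (by omega), if_pos (by omega)]
      push_cast
      linarith
  | h k =>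
    simp only [out, z, phi]
    rw [if_pos (by omega)]
    push_cast
    linarith
  | g k =>
    simp only [out, phi]
    push_cast
    linarith

/-- drift of the outward strategy -/
lemma drift_out (x : Vx) :
    (12 / 25 + 1038 / 2000) * phi x + 0.017 ≤
      12 / 25 * phi (out x) + 1038 / 2000 * avg Gr phi x := by
  have h1 := avg_sub x
  have h2 := out_phi x
  linarith

/-! ### The winning strategy -/

lemma exists_geo (x y : Vx) (hxy : x ≠ y) : ∃ w, Gr.Adj x w ∧ Gr.dist w y + 1 = Gr.dist x y := by
  obtain ⟨p, hp⟩ := conn.exists_walk_length_eq_dist x y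
  cases p with
  | nil => exact absurd rfl hxy
  | @cons _ w _ hw p =>
    refine ⟨w, hw, ?_⟩
    rw [SimpleGraph.Walk.length_cons] at hp
    have h1 := SimpleGraph.dist_le p
    have h2 := conn.dist_triangle (u := x) (v := w) (w := y)
    have h3 := dist_adj hw
    omega

open Classical in
/-- the strategy -/
noncomputable def cop (u v : Vx) : Vx :=
  if hd : Gr.dist u v ≤ 8 then
    (if h : u ≠ v then (exists_geo u v h).choose else u)
  else if phi v ≤ phi u then inn u else out u

lemma cop_ok (u v : Vx) : cop u v = u ∨ Gr.Adj u (cop u v) := by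
  unfold cop
  split_ifs with h1 h2 h3
  · right; exact (exists_geo u v h2).choose_spec.1
  · left; rfl
  · exact inn_ok u
  · right; exact out_ok u

/-- the Lyapunov function -/
noncomputable def Ly (p : Vx × Vx) : ℝ :=
  1 - (1 / 32) ^ (Gr.dist p.1 p.2) + 10 * (1 / 32) ^ 8 * |phi p.1 - phi p.2|

lemma Ly_nonneg (p : Vx × Vx) : 0 ≤ Ly p := by
  unfold Ly
  have h1 : ((1 : ℝ) / 32) ^ (Gr.dist p.1 p.2) ≤ 1 := pow_le_one₀ (by norm_num) (by norm_num)
  have h2 : 0 ≤ |phi p.1 - phi p.2| := abs_nonneg _
  nlinarith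

lemma pow_dist {d e : ℕ} (hde : e ≤ d + 1) :
    ((1 : ℝ) / 32) ^ d / 32 ≤ (1 / 32) ^ e := by
  have h1 : ((1 : ℝ) / 32) ^ (d + 1) ≤ (1 / 32) ^ e :=
    pow_le_pow_of_le_one (by norm_num) (by norm_num) hde
  rw [pow_succ] at h1
  linarith

lemma Ly_main (u v v1 : Vx) (huv : u ≠ v) (hv : Gr.Adj v v1) :
    (12 / 25 * Ly (cop u v, v) + 1 / 2000 * Ly (u, v1) +
      1038 / 2000 * avg Gr (fun u' => Ly (u', v)) u +
      1 / 2000 * avg Gr (fun v' => Ly (u, v')) v) + (1 / 32) ^ 8 / 10 ≤ Ly (u, v) := by
  set d := Gr.dist u v with hd0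
  set X : ℝ := (1 / 32) ^ d with hX
  set D : ℝ := |phi u - phi v| with hD
  -- general bounds
  have hu' : ∀ u', Gr.Adj u u' ∨ u' = u → Gr.dist u' v ≤ d + 1 := by
    rintro u' (h1 | rfl)
    · have h2 := conn.dist_triangle (u := u') (v := u) (w := v)
      have h3 := dist_adj h1.symm
      omega
    · omega
  have hphi : ∀ u', Gr.Adj u u' ∨ u' = u → |phi u' - phi u| ≤ 0.715 := by
    rintro u' (h1 | rfl)
    · exact phi_adj h1
    · rw [sub_self, abs_zero]; norm_num
  have hv' : ∀ v', Gr.Adj v v' → Ly (u, v') ≤ 1 - X / 32 + 10 * (1 / 32) ^ 8 * (D + 0.715) := by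
    intro v' h1
    unfold Ly
    have h2 := conn.dist_triangle (u := u) (v := v) (w := v')
    have h3 := dist_adj h1
    have h4 := pow_dist (d := d) (e := Gr.dist u v') (by omega)
    have h5 : |phi u - phi v'| ≤ D + 0.715 := by
      have h6 := phi_adj h1
      have h7 : phi u - phi v' = (phi u - phi v) - (phi v' - phi v) := by ring
      rw [h7]
      exact (abs_sub _ _).trans (by linarith)
    have h8 : (0 : ℝ) < 10 * (1 / 32) ^ 8 := by positivity
    have h9 := mul_le_mul_of_nonneg_left h5 h8.le
    simp only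
    linarith
  have hv1 := hv' v1 hv
  have hvavg : avg Gr (fun v' => Ly (u, v')) v ≤
      1 - X / 32 + 10 * (1 / 32) ^ 8 * (D + 0.715) := by
    refine (avg_le Gr v hv').trans ?_
    rw [avg_const Gr hne]
  have hLu : Ly (u, v) = 1 - X + 10 * (1 / 32) ^ 8 * D := rfl
  rw [hLu]
  have hK : (0 : ℝ) < (1 / 32) ^ 8 := by positivity
  set K : ℝ := (1 / 32) ^ 8 with hKdef
  by_cases hzone : d ≤ 8
  · -- close
    have hXK : K ≤ X := pow_le_pow_of_le_one (by norm_num) (by norm_num) hzone
    have huavg : avg Gr (fun u' => Ly (u', v)) u ≤ 1 - X / 32 + 10 * K * (D + 0.715) := by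
      have h1 : ∀ u', Gr.Adj u u' → Ly (u', v) ≤ 1 - X / 32 + 10 * K * (D + 0.715) := by
        intro u' h1
        unfold Ly
        have h4 := pow_dist (d := d) (e := Gr.dist u' v) (hu' u' (Or.inl h1))
        have h5 : |phi u' - phi v| ≤ D + 0.715 := by
          have h6 := phi_adj h1
          have h7 : phi u' - phi v = (phi u - phi v) + (phi u' - phi u) := by ring
          rw [h7]
          exact (abs_add_le _ _).trans (by linarith)
        have h9 := mul_le_mul_of_nonneg_left h5 (by linarith : 0 ≤ 10 * K)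
        simp only
        linarith
      refine (avg_le Gr u h1).trans ?_
      rw [avg_const Gr hne]
    have hc : Ly (cop u v, v) ≤ 1 - 32 * X + 10 * K * (D + 0.715) := by
      have h1 : cop u v = (exists_geo u v huv).choose := by
        unfold cop
        rw [dif_pos (by omega), dif_pos huv]
      obtain ⟨h2, h3⟩ := (exists_geo u v huv).choose_spec
      rw [← h1] at h2 h3
      unfold Ly
      simp only
      have h4 : X = (1 / 32) ^ (Gr.dist (cop u v) v) / 32 := by
        rw [hX, hd0, ← h3, pow_succ]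
        ring
      have h5 : |phi (cop u v) - phi v| ≤ D + 0.715 := by
        have h6 := phi_adj h2
        have h7 : phi (cop u v) - phi v = (phi u - phi v) + (phi (cop u v) - phi u) := by ring
        rw [h7]
        exact (abs_add_le _ _).trans (by linarith)
      have h9 := mul_le_mul_of_nonneg_left h5 (by linarith : 0 ≤ 10 * K)
      linarith
    clear_value K X D
    clear hv' hphi hu' hX hD hKdef hzone hLu
    generalize avg Gr (fun u' => Ly (u', v)) u = A1 at huavg ⊢
    generalize avg Gr (fun v' => Ly (u, v')) v = A2 at hvavg ⊢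
    generalize Ly (cop u v, v) = A3 at hc ⊢
    generalize Ly (u, v1) = A4 at hv1 ⊢
    linarith
  · -- far
    have hfar : 0.715 ≤ D := far (by omega)
    have hXK : X ≤ K / 32 := by
      have : X ≤ (1 / 32) ^ 9 := pow_le_pow_of_le_one (by norm_num) (by norm_num) (by omega)
      rw [pow_succ] at this
      linarith
    rcases le_or_gt (phi v) (phi u) with hle | hlt
    · have hDe : D = phi u - phi v := abs_of_nonneg (by linarith)
      have hb : ∀ u', Gr.Adj u u' ∨ u' = u →
          Ly (u', v) ≤ (1 - X / 32 - 10 * K * phi v) + 10 * K * phi u' := by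
        intro u' h1
        unfold Ly
        have h4 := pow_dist (d := d) (e := Gr.dist u' v) (hu' u' h1)
        have h5 := (abs_le.mp (hphi u' h1)).1
        have h6 : |phi u' - phi v| = phi u' - phi v := abs_of_nonneg (by linarith)
        simp only
        rw [h6]
        linarith
      have hc : cop u v = inn u := by
        unfold cop
        rw [dif_neg (by omega), if_pos hle]
      rw [hc]
      have h1 := hb (inn u) (inn_ok u).symm
      have h2 : avg Gr (fun u' => Ly (u', v)) u ≤
          (1 - X / 32 - 10 * K * phi v) + 10 * K * avg Gr phi u := by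
        refine (avg_le Gr u fun u' h => hb u' (Or.inl h)).trans ?_
        rw [avg_lin Gr hne]
      have h3 := drift_in u (by
        have := phi_nonneg v
        linarith)
      have h4 := mul_le_mul_of_nonneg_left h3 (by linarith : 0 ≤ 10 * K)
      rw [hDe] at hvavg hv1 ⊢
      linarith
    · have hDe : D = phi v - phi u := by
        rw [hD, abs_of_neg (by linarith)]
        ring
      have hb : ∀ u', Gr.Adj u u' ∨ u' = u →
          Ly (u', v) ≤ (1 - X / 32 + 10 * K * phi v) + (-(10 * K)) * phi u' := by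
        intro u' h1
        unfold Ly
        have h4 := pow_dist (d := d) (e := Gr.dist u' v) (hu' u' h1)
        have h5 := (abs_le.mp (hphi u' h1)).2
        have h6 : |phi u' - phi v| = phi v - phi u' := by
          rw [abs_of_nonpos (by linarith)]
          ring
        simp only
        rw [h6]
        linarith
      have hc : cop u v = out u := by
        unfold cop
        rw [dif_neg (by omega), if_neg (by linarith)]
      rw [hc]
      have h1 := hb (out u) (Or.inl (out_ok u))
      have h2 : avg Gr (fun u' => Ly (u', v)) u ≤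
          (1 - X / 32 + 10 * K * phi v) + (-(10 * K)) * avg Gr phi u := by
        refine (avg_le Gr u fun u' h => hb u' (Or.inl h)).trans ?_
        rw [avg_lin Gr hne]
      have h3 := drift_out u
      have h4 := mul_le_mul_of_nonneg_left h3 (by linarith : 0 ≤ 10 * K)
      rw [hDe] at hvavg hv1 ⊢
      linarith

/-! ### Monotone strategies fail -/

/-- bound for the probability that a monotone cop catches the robber -/
noncomputable def wt : Vx × Vx → ℝ
  | (v n _, v m _) => if m < n then min 1 ((24 / 25) ^ (n - m) + 2 * (1 / 100) ^ m) else 1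
  | _ => 1

lemma wt_le_one (p : Vx × Vx) : wt p ≤ 1 := by
  rcases p with ⟨x, y⟩
  cases x <;> cases y <;> simp only [wt, le_refl]
  split_ifs
  · exact min_le_left _ _
  · exact le_rfl

lemma wt_nonneg (p : Vx × Vx) : 0 ≤ wt p := by
  rcases p with ⟨x, y⟩
  cases x <;> cases y <;> simp only [wt, zero_le_one]
  split_ifs
  · exact le_min zero_le_one (by positivity)
  · exact zero_le_one

/-- the bound on the levels -/
lemma wt_le (n m : ℕ) (hnm : m ≤ n) (i : Fin (100 ^ n)) (j : Fin (100 ^ m)) :
    wt (v n i, v m j) ≤ (24 / 25) ^ (n - m) + 2 * (1 / 100) ^ m := by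
  simp only [wt]
  split_ifs with h1
  · exact min_le_right _ _
  · have : n - m = 0 := by omega
    rw [this]
    have : (0 : ℝ) ≤ 2 * (1 / 100) ^ m := by positivity
    linarith

lemma avg_wt_le_one (f : Vx → Vx × Vx) (x : Vx) : avg Gr (fun u => wt (f u)) x ≤ 1 := by
  refine (avg_le Gr x fun y _ => wt_le_one (f y)).trans ?_
  rw [avg_const Gr hne]

/-- average over the cop's neighbours -/
lemma avg_wt_cop (n m : ℕ) (hm : 1 ≤ m) (hnm : m < n) (i : Fin (100 ^ n)) (j : Fin (100 ^ m)) :
    avg Gr (fun u => wt (u, v m j)) (v n i) ≤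
      (24 / 25) ^ (n - m) * (24 / 25) + 2 * (1 / 100) ^ m +
        2 / 10000 * ((24 / 25) ^ (n - m) * (25 / 24)) := by
  have hw1 : ∀ i', wt (v (n + 1) i', v m j) ≤
      (24 / 25) ^ (n - m) * (24 / 25) + 2 * (1 / 100) ^ m := by
    intro i'
    have h1 := wt_le (n + 1) m (by omega) i' j
    rw [show n + 1 - m = (n - m) + 1 by omega, pow_succ] at h1
    exact h1
  have hw2 : ∀ i', wt (v (n - 1) i', v m j) ≤
      (24 / 25) ^ (n - m) * (25 / 24) + 2 * (1 / 100) ^ m := by
    intro i'
    have h1 := wt_le (n - 1) m (by omega) i' j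
    have h2 : n - m = (n - 1 - m) + 1 := by omega
    rw [h2, pow_succ]
    refine h1.trans (le_of_eq ?_)
    ring
  set Y : ℝ := (24 / 25) ^ (n - m) with hY
  set Z : ℝ := (1 / 100) ^ m with hZ
  have hYpos : 0 < Y := by positivity
  have hZpos : 0 < Z := by positivity
  rcases cases_level n with rfl | ⟨k, rfl⟩ | ⟨k, rfl⟩
  · omega
  · unfold avg
    rw [sum_ve (fun u => wt (u, v m j)) (fun n' => wt (z n', v m j)) (fun _ _ => rfl), card_ve]
    have a1 : wt (z (2 * k + 3), v m j) ≤ _ := hw1 ⟨0, by positivity⟩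
    have a2 : wt (z (2 * k + 1), v m j) ≤ _ := hw2 ⟨0, by positivity⟩
    have a3 : wt (h (k + 1), v m j) = 1 := rfl
    rw [a3]
    have hA : (100 : ℝ) ^ (2 * k + 3) = 10000 * 100 ^ (2 * k + 1) := by
      rw [show 2 * k + 3 = (2 * k + 1) + 2 by ring, pow_add]; norm_num; ring
    rw [hA]
    have hB : (100 : ℝ) ≤ 100 ^ (2 * k + 1) := by
      calc (100 : ℝ) = 100 ^ 1 := by norm_num
        _ ≤ _ := pow_le_pow_right₀ (by norm_num) (by omega)
    have hBY : 1 ≤ (100 : ℝ) ^ (2 * k + 1) * Y := by
      have h1 : ((24 : ℝ) / 25) ^ (2 * k + 1) ≤ Y :=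
        pow_le_pow_of_le_one (by norm_num) (by norm_num) (by omega)
      have h2 : (1 : ℝ) ≤ 100 ^ (2 * k + 1) * (24 / 25) ^ (2 * k + 1) := by
        rw [← mul_pow]
        exact one_le_pow₀ (by norm_num)
      have h3 := mul_le_mul_of_nonneg_left h1 (by positivity : (0 : ℝ) ≤ 100 ^ (2 * k + 1))
      linarith
    set B : ℝ := 100 ^ (2 * k + 1)
    have hpos : 0 < 10000 * B + B + 1 := by linarith
    rw [div_le_iff₀ hpos]
    have b1 := mul_le_mul_of_nonneg_left a1 (by linarith : 0 ≤ 10000 * B)
    have b2 := mul_le_mul_of_nonneg_left a2 (by linarith : 0 ≤ B)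
    have b3 : 0 < B * Z := by positivity
    nlinarith
  · unfold avg
    rw [sum_vo (fun u => wt (u, v m j)) (fun n' => wt (z n', v m j)) (fun _ _ => rfl), card_vo]
    have a1 : wt (z (2 * k + 2), v m j) ≤ _ := hw1 ⟨0, by positivity⟩
    have a2 : wt (z (2 * k), v m j) ≤ _ := hw2 ⟨0, by positivity⟩
    have hA : (100 : ℝ) ^ (2 * k + 2) = 10000 * 100 ^ (2 * k) := by
      rw [pow_add]; norm_num; ring
    rw [hA]
    have hB : (1 : ℝ) ≤ 100 ^ (2 * k) := one_le_pow₀ (by norm_num)
    set B : ℝ := 100 ^ (2 * k)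
    have hpos : 0 < 10000 * B + B := by linarith
    rw [div_le_iff₀ hpos]
    have b1 := mul_le_mul_of_nonneg_left a1 (by linarith : 0 ≤ 10000 * B)
    have b2 := mul_le_mul_of_nonneg_left a2 (by linarith : 0 ≤ B)
    have b3 : 0 < B * Y := by positivity
    nlinarith

/-- average over the robber's neighbours -/
lemma avg_wt_rob (n m : ℕ) (hm : 1 ≤ m) (hnm : m < n) (i : Fin (100 ^ n)) (j : Fin (100 ^ m)) :
    avg Gr (fun y => wt (v n i, y)) (v m j) ≤
      (24 / 25) ^ (n - m) * (25 / 24) + 5 / 100 * (1 / 100) ^ m := by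
  have hw1 : ∀ j', wt (v n i, v (m + 1) j') ≤
      (24 / 25) ^ (n - m) * (25 / 24) + 2 / 100 * (1 / 100) ^ m := by
    intro j'
    have h1 := wt_le n (m + 1) (by omega) i j'
    have h2 : n - m = (n - (m + 1)) + 1 := by omega
    rw [h2, pow_succ]
    refine h1.trans (le_of_eq ?_)
    rw [pow_succ]
    ring
  have hw2 : ∀ j', wt (v n i, v (m - 1) j') ≤
      (24 / 25) ^ (n - m) * (25 / 24) + 200 * (1 / 100) ^ m := by
    intro j'
    have h1 := wt_le n (m - 1) (by omega) i j'
    have h2 : n - (m - 1) = (n - m) + 1 := by omega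
    have h3 : ((1 : ℝ) / 100) ^ m = (1 / 100) ^ (m - 1) / 100 := by
      conv_lhs => rw [show m = (m - 1) + 1 by omega, pow_succ]
      ring
    rw [h2, pow_succ] at h1
    rw [h3]
    have h4 : (0 : ℝ) < (24 / 25) ^ (n - m) := by positivity
    linarith
  set Y : ℝ := (24 / 25) ^ (n - m) with hY
  have hYpos : 0 < Y := by positivity
  rcases cases_level m with rfl | ⟨k, rfl⟩ | ⟨k, rfl⟩
  · omega
  · unfold avg
    rw [sum_ve (fun y => wt (v n i, y)) (fun n' => wt (v n i, z n')) ?_, card_ve]
    · have a1 : wt (v n i, z (2 * k + 3)) ≤ _ := hw1 ⟨0, by positivity⟩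
      have a2 : wt (v n i, z (2 * k + 1)) ≤ _ := hw2 ⟨0, by positivity⟩
      have a3 : wt (v n i, h (k + 1)) = 1 := rfl
      rw [a3]
      have hA : (100 : ℝ) ^ (2 * k + 3) = 10000 * 100 ^ (2 * k + 1) := by
        rw [show 2 * k + 3 = (2 * k + 1) + 2 by ring, pow_add]; norm_num; ring
      rw [hA]
      have hBZ : (100 : ℝ) ^ (2 * k + 1) * (1 / 100) ^ (2 * k + 2) = 1 / 100 := by
        rw [pow_succ (1 / 100 : ℝ) (2 * k + 1), ← mul_assoc, ← mul_pow]
        norm_num
      have hB : (1 : ℝ) ≤ 100 ^ (2 * k + 1) := one_le_pow₀ (by norm_num)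
      set B : ℝ := 100 ^ (2 * k + 1)
      set Z : ℝ := (1 / 100) ^ (2 * k + 2)
      have hZpos : 0 < Z := by positivity
      have hpos : 0 < 10000 * B + B + 1 := by linarith
      rw [div_le_iff₀ hpos]
      have b1 := mul_le_mul_of_nonneg_left a1 (by linarith : 0 ≤ 10000 * B)
      have b2 := mul_le_mul_of_nonneg_left a2 (by linarith : 0 ≤ B)
      nlinarith
    · intro n' i'
      rfl
  · unfold avg
    rw [sum_vo (fun y => wt (v n i, y)) (fun n' => wt (v n i, z n')) ?_, card_vo]
    · have a1 : wt (v n i, z (2 * k + 2)) ≤ _ := hw1 ⟨0, by positivity⟩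
      have a2 : wt (v n i, z (2 * k)) ≤ _ := hw2 ⟨0, by positivity⟩
      have hA : (100 : ℝ) ^ (2 * k + 2) = 10000 * 100 ^ (2 * k) := by
        rw [pow_add]; norm_num; ring
      rw [hA]
      have hB : (1 : ℝ) ≤ 100 ^ (2 * k) := one_le_pow₀ (by norm_num)
      set B : ℝ := 100 ^ (2 * k)
      set Z : ℝ := (1 / 100) ^ (2 * k + 1)
      have hZpos : 0 < Z := by positivity
      have hpos : 0 < 10000 * B + B := by linarith
      rw [div_le_iff₀ hpos]
      have b1 := mul_le_mul_of_nonneg_left a1 (by linarith : 0 ≤ 10000 * B)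
      have b2 := mul_le_mul_of_nonneg_left a2 (by linarith : 0 ≤ B)
      have b3 : 0 < B * Z := by positivity
      nlinarith
    · intro n' i'
      rfl

/-- monotone moves do not use the highway -/
lemma mono_lv {n m : ℕ} (hnm : m < n) (i : Fin (100 ^ n)) (j : Fin (100 ^ m)) (x : Vx)
    (hx : x = v n i ∨ Gr.Adj (v n i) x) (hd : Gr.dist x (v m j) ≤ Gr.dist (v n i) (v m j)) :
    wt (x, v m j) ≤ (24 / 25) ^ (n - m) * (25 / 24) + 2 * (1 / 100) ^ m := by
  have h1 : Gr.dist (v n i) (v m j) ≤ n - m := by
    obtain ⟨d, rfl⟩ : ∃ d, n = m + d + 1 := ⟨n - m - 1, by omega⟩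
    have := dist_lv m d i j
    omega
  have h2 := del_dist x (v m j)
  have hY : (0 : ℝ) < (24 / 25) ^ (n - m) := by positivity
  rcases hx with rfl | hx
  · have := wt_le n m hnm.le i j
    linarith
  · cases x with
    | v l i' =>
      have hl : l = n + 1 ∨ n = l + 1 := hx
      have h3 := wt_le l m (by omega) i' j
      have h4 : ((24 : ℝ) / 25) ^ (l - m) ≤ (24 / 25) ^ (n - m) * (25 / 24) := by
        have h5 : ((24 : ℝ) / 25) ^ (n - m) = (24 / 25) ^ (n - m - 1) * (24 / 25) := by
          rw [← pow_succ]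
          congr 1
          omega
        rw [h5, mul_assoc]
        have h6 : ((24 : ℝ) / 25) ^ (l - m) ≤ (24 / 25) ^ (n - m - 1) :=
          pow_le_pow_of_le_one (by norm_num) (by norm_num) (by omega)
        linarith
      linarith
    | h k =>
      have hk : n = 2 * k := hx
      simp only [del] at h2
      omega
    | g k =>
      exact absurd hx (by simp [Gr, adj])

lemma wt_main (u v' : Vx) (x : Vx) (hx : x = u ∨ Gr.Adj u x)
    (hd : Gr.dist x v' ≤ Gr.dist u v') :
    12 / 25 * wt (x, v') + 1 / 2000 * wt (u, out v') +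
      1038 / 2000 * avg Gr (fun u' => wt (u', v')) u +
      1 / 2000 * avg Gr (fun y => wt (u, y)) v' ≤ wt (u, v') := by
  have g1 := wt_le_one (x, v')
  have g2 := wt_le_one (u, out v')
  have g3 := avg_wt_le_one (fun u' => (u', v')) u
  have g4 := avg_wt_le_one (fun y => (u, y)) v'
  by_cases hone : wt (u, v') = 1
  · rw [hone]
    linarith
  · have hlt : wt (u, v') < 1 := lt_of_le_of_ne (wt_le_one _) hone
    cases u with
    | v n i =>
      cases v' with
      | v m j =>
        simp only [wt] at hlt
        split_ifs at hlt with hnm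
        · have hm : 1 ≤ m := by
            rcases Nat.eq_zero_or_pos m with rfl | h1
            · exfalso
              rw [min_lt_iff] at hlt
              have : (0 : ℝ) < (24 / 25) ^ n := by positivity
              rcases hlt with h2 | h2
              · linarith
              · rw [pow_zero, Nat.sub_zero] at h2
                linarith
            · exact h1
          have hw : wt (v n i, v m j) = (24 / 25) ^ (n - m) + 2 * (1 / 100) ^ m := by
            simp only [wt]
            rw [if_pos hnm]
            rw [min_lt_iff] at hlt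
            rcases hlt with h2 | h2
            · linarith
            · exact min_eq_right h2.le
          rw [hw]
          have a1 := mono_lv hnm i j x hx hd
          have a2 := avg_wt_cop n m hm hnm i j
          have a3 := avg_wt_rob n m hm hnm i j
          have a4 : wt (v n i, out (v m j)) ≤
              (24 / 25) ^ (n - m) * (25 / 24) + 2 / 100 * (1 / 100) ^ m := by
            have h1 := wt_le n (m + 1) (by omega) i ⟨0, by positivity⟩
            have h2 : n - m = (n - (m + 1)) + 1 := by omega
            rw [h2, pow_succ]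
            refine h1.trans (le_of_eq ?_)
            rw [pow_succ]
            ring
          have hY : (0 : ℝ) < (24 / 25) ^ (n - m) := by positivity
          have hZ : (0 : ℝ) < (1 / 100) ^ m := by positivity
          linarith
        · linarith
      | h k => simp [wt] at hlt
      | g k => simp [wt] at hlt
    | h k => simp [wt] at hlt
    | g k => simp [wt] at hlt

end Vx

/-- There are a connected locally finite graph, positive parameters and positions of the cop and
the robber such that the cop has a winning strategy but no monotone winning strategy. -/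
theorem result :
    ∃ (V : Type) (_ : Countable V) (G : SimpleGraph V) (_ : G.LocallyFinite)
      (c r tc tr : ℝ≥0) (h : c + r + tc + tr = 1) (u₀ v₀ : V),
      G.Connected ∧ 0 < c ∧ 0 < r ∧ 0 < tc ∧ 0 < tr ∧
      (∃ cop, CopStrategy G cop ∧ Winning G (kind c r tc tr h) u₀ v₀ cop) ∧
      ¬ ∃ cop, CopStrategy G cop ∧ MonotoneStrategy G cop ∧
        Winning G (kind c r tc tr h) u₀ v₀ cop := by
  have hsum : (12 / 25 : ℝ≥0) + 1 / 2000 + 1038 / 2000 + 1 / 2000 = 1 := by
    rw [← NNReal.coe_inj]
    push_cast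
    norm_num
  have q1 : ((12 / 25 : ℝ≥0) : ℝ) = 12 / 25 := by push_cast; rfl
  have q2 : ((1 / 2000 : ℝ≥0) : ℝ) = 1 / 2000 := by push_cast; rfl
  have q3 : ((1038 / 2000 : ℝ≥0) : ℝ) = 1038 / 2000 := by push_cast; rfl
  refine ⟨Vx, inferInstance, Vx.Gr, inferInstance, 12 / 25, 1 / 2000, 1038 / 2000, 1 / 2000,
    hsum, Vx.z 19, Vx.z 1, Vx.conn, by positivity, by positivity, by positivity, by positivity,
    ?_, ?_⟩
  · refine ⟨fun _ => Vx.cop, fun _ u v => Vx.cop_ok u v, ?_⟩
    unfold Winning
    intro rob hrob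
    letI : MeasurableSpace Vx := ⊤
    haveI : DiscreteMeasurableSpace Vx := ⟨fun _ => trivial⟩
    have key := hit_ae (fun s => step Vx.Gr (kind (12 / 25) (1 / 2000) (1038 / 2000) (1 / 2000)
      hsum) Vx.cop (rob s)) (fun p => decide (p.1 = p.2)) (Vx.z 19, Vx.z 1)
      (fun p => ENNReal.ofReal (Vx.Ly p)) (ENNReal.ofReal ((1 / 32) ^ 8 / 10))
      (by
        rw [Ne, ENNReal.ofReal_eq_zero, not_le]
        positivity) ENNReal.ofReal_ne_top (by
        rintro n ⟨u, v⟩ huv
        simp only [decide_eq_false_iff_not] at huv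
        rw [step_tsum Vx.Gr _ _ _ _ hsum Vx.hne Vx.cop (rob n) (u, v) Vx.Ly Vx.Ly_nonneg,
          ← ENNReal.ofReal_add]
        · apply ENNReal.ofReal_le_ofReal
          rw [q1, q2, q3]
          exact Vx.Ly_main u v (rob n u v) huv (hrob n u v)
        · have ha : ∀ (g : Vx → Vx × Vx) (x : Vx),
              0 ≤ avg Vx.Gr (fun y => Vx.Ly (g y)) x := by
            intro g x
            unfold avg
            exact div_nonneg (Finset.sum_nonneg fun y _ => Vx.Ly_nonneg _) (Nat.cast_nonneg _)
          have h1 := Vx.Ly_nonneg (Vx.cop u v, v)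
          have h2 := Vx.Ly_nonneg (u, rob n u v)
          have h3 := ha (fun u' => (u', v)) u
          have h4 := ha (fun v' => (u, v')) v
          simp only
          positivity
        · positivity)
    filter_upwards [key] with ω hω
    obtain ⟨s, hs⟩ := hω
    exact ⟨s, of_decide_eq_true hs⟩
  · rintro ⟨cop, hcop, hmono, hwin⟩
    unfold Winning at hwin
    letI : MeasurableSpace Vx := ⊤
    haveI : DiscreteMeasurableSpace Vx := ⟨fun _ => trivial⟩
    have h1 := hwin (fun _ _ v => Vx.out v) (fun _ _ v => Vx.out_ok v)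
    have h2 := hit_prob_le (fun s => step Vx.Gr (kind (12 / 25) (1 / 2000) (1038 / 2000)
      (1 / 2000) hsum) (cop s) (fun _ v => Vx.out v)) (fun p => decide (p.1 = p.2))
      (Vx.z 19, Vx.z 1) (fun p => ENNReal.ofReal (Vx.wt p)) (by
        rintro n ⟨u, v⟩ _
        rw [step_tsum Vx.Gr _ _ _ _ hsum Vx.hne (cop n) _ (u, v) Vx.wt Vx.wt_nonneg]
        apply ENNReal.ofReal_le_ofReal
        rw [q1, q2, q3]
        exact Vx.wt_main u v (cop n u v) (hcop n u v) (hmono n u v)) (by
        rintro ⟨u, v⟩ huv
        have huv' : u = v := of_decide_eq_true huv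
        subst huv'
        have : Vx.wt (u, u) = 1 := by
          cases u <;> simp [Vx.wt]
        rw [this, ENNReal.ofReal_one])
    have h3 : 1 ≤ (driveI fun s => step Vx.Gr (kind (12 / 25) (1 / 2000) (1038 / 2000)
      (1 / 2000) hsum) (cop s) (fun _ v => Vx.out v)) {ω | ∃ n, (fun p : Vx × Vx =>
        decide (p.1 = p.2)) (walk (Vx.z 19, Vx.z 1) ω n) = true} := by
      have e1 := measure_univ_le_add_compl (μ := driveI fun s => step Vx.Gr (kind (12 / 25)
        (1 / 2000) (1038 / 2000) (1 / 2000) hsum) (cop s) (fun _ v => Vx.out v))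
        {ω | ∃ n, (fun p : Vx × Vx => decide (p.1 = p.2)) (walk (Vx.z 19, Vx.z 1) ω n) = true}
      rw [measure_univ] at e1
      refine e1.trans (le_of_eq ?_)
      have e2 : (driveI fun s => step Vx.Gr (kind (12 / 25)
        (1 / 2000) (1038 / 2000) (1 / 2000) hsum) (cop s) (fun _ v => Vx.out v))
        {ω | ∃ n, (fun p : Vx × Vx => decide (p.1 = p.2))
          (walk (Vx.z 19, Vx.z 1) ω n) = true}ᶜ = 0 := by
        rw [ae_iff] at h1
        refine measure_mono_null ?_ h1
        intro ω hω
        simp only [Set.mem_compl_iff, Set.mem_ofPred_eq, decide_eq_true_eq] at hω ⊢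
        exact hω
      rw [e2, add_zero]
    have h2 := h3.trans h2
    have h4 : Vx.wt (Vx.z 19, Vx.z 1) < 1 := by
      simp only [Vx.wt, Vx.z]
      rw [if_pos (by norm_num), min_lt_iff]
      right
      norm_num
    have h5 : ENNReal.ofReal (Vx.wt (Vx.z 19, Vx.z 1)) < 1 := by
      rw [ENNReal.ofReal_lt_one]
      exact h4
    exact absurd h2 (not_le.mpr h5)

end Pool.Agent.Results.MP_037b14_pr.MonotoneNotEnough
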